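import Pool.Agent.H20.SM.Targets
import Pool.Agent.H37.CV.All
import Pool.Agent.H69.CV.FMO

/-!
# Row FMOr of the board sm: the first moment opened
-/

set_option autoImplicit false
set_option maxHeartbeats 400000

open NumberField NumberField.InfinitePlace Complex Filter Topology

namespace Pool.Agent.H4.SM

open Pool.Agent.H20.SM Pool.Agent.H37.CV Pool.Agent.H28.RC Pool.Agent.H25.HK
open Pool.Agent.H59.CV (one_le_nm NB summable_nm3 ww idS_ne idS_sup nS_pos sup_mul of_sup_mul
  mul_ne)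
open Pool.Agent.H69.CV (nm_idS fa summable_fa ks lam_eq NN NN_ne summable_ks norm_psi_le open1
  inner1 same)

theorem pf_FMOr : T_FMOr := by
  have hOR := a_OR
  have hWV := a_WV
  have hDV := a_DV
  classical
  intro K _ _ _ m d X M hm hmd hX hM
  obtain ⟨C, hC⟩ := (hDV K).2
  have hNB : NB K C := hC
  obtain ⟨hfin, hnc, hor⟩ := hOR K m d hm hmd
  have hsk : ∀ S ∈ DM K M, Summable (fun n : NN m d => ‖ks X M S n.1‖) :=
    fun S _ => summable_ks hWV hNB hX M S m d
  refine ⟨?_, ?_⟩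
  · refine (summable_sum hsk).of_nonneg_of_le (fun n => ?_) fun n => ?_
    · have := one_le_nm (NN_ne n)
      positivity
    · have h1 : ‖lam X M n.1‖ * nm n.1 ^ (-(1 / 2) : ℝ) =
          ‖lam X M n.1 * ((nm n.1 ^ (-(1 / 2) : ℝ) : ℝ) : ℂ)‖ := by
        have := one_le_nm (NN_ne n)
        rw [norm_mul, Complex.norm_real, Real.norm_of_nonneg (Real.rpow_nonneg (by linarith) _)]
      rw [h1, lam_eq]
      exact norm_sum_le _ _
  · have hpc : ∀ ψ ∈ hfin.toFinset, PC m ψ := fun ψ hψ => (hfin.mem_toFinset.1 hψ).1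
    have hR : ∑' n : NN m d, lam X M n.1 * ((nm n.1 ^ (-(1 / 2) : ℝ) : ℝ) : ℂ) =
        ∑ S ∈ DM K M, ∑' n : NN m d, ks X M S n.1 := by
      rw [tsum_congr fun n : NN m d => lam_eq X M n.1]
      exact Summable.tsum_finsetSum fun S hS => (hsk S hS).of_norm
    rw [hR, finsum_mem_eq_finite_toFinset_sum _ hfin]
    rw [Finset.sum_congr rfl fun ψ hψ => open1 (hpc ψ hψ) X M, Finset.sum_comm, Finset.mul_sum]
    refine Finset.sum_congr rfl fun S hS => ?_
    rw [← same X M m d S (nc m d : ℂ), ← Finset.mul_sum]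
    congr 1
    have hsum : ∀ ψ ∈ hfin.toFinset, Summable (fun a : NI K => fa X a * ψ (a.1 * idS S)) := by
      intro ψ hψ
      refine Summable.of_norm ((summable_fa hWV hNB hX).of_nonneg_of_le
        (fun _ => norm_nonneg _) fun a => ?_)
      rw [norm_mul]
      calc ‖fa X a‖ * ‖ψ (a.1 * idS S)‖ ≤ ‖fa X a‖ * 1 :=
            mul_le_mul_of_nonneg_left (norm_psi_le (hpc ψ hψ) _) (norm_nonneg _)
        _ = _ := mul_one _
    rw [← Summable.tsum_finsetSum hsum]
    refine tsum_congr fun a => ?_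
    rw [← Finset.mul_sum]
    have h1 := inner1 hfin hor (a.1 * idS S) (mul_ne a.2 (idS_ne S))
    by_cases ha : (a.1 * idS S, (⊤ : Ideal (𝓞 K))) ∈ CP m d
    · rw [h1.1 ha, Set.indicator_of_mem (by exact ha)]
      ring
    · rw [h1.2 ha, Set.indicator_of_notMem (by exact ha), mul_zero]

end Pool.Agent.H4.SM
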