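import Mathlib

/-!
# Row SRd of the board sm: the numerical inequalities
-/

set_option autoImplicit false

open Filter Topology

namespace Pool.Agent.H4.SM

theorem srd_ev1 (C : ℝ) (k : ℕ) {b : ℝ} (hb : 0 < b) :
    ∀ᶠ l : ℝ in atTop, C * l ^ k ≤ Real.exp (b * l) := by
  have h1 := (isLittleO_pow_exp_pos_mul_atTop (k := k) hb).bound
    (c := (|C| + 1)⁻¹) (by positivity)
  filter_upwards [h1, eventually_ge_atTop (0 : ℝ)] with l h2 h3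
  have h4 : (0 : ℝ) < |C| + 1 := by positivity
  rw [Real.norm_of_nonneg (by positivity), Real.norm_of_nonneg (Real.exp_pos _).le] at h2
  have h5 : C ≤ |C| + 1 := by linarith [le_abs_self C]
  calc C * l ^ k ≤ (|C| + 1) * l ^ k := by gcongr
    _ ≤ (|C| + 1) * ((|C| + 1)⁻¹ * Real.exp (b * l)) := by gcongr
    _ = Real.exp (b * l) := by field_simp

theorem srd_ev2 (C : ℝ) (k E : ℕ) {c : ℝ} (hc : 0 < c) :
    ∀ᶠ l : ℝ in atTop, C * l ^ k * Real.exp (E * l) ≤ Real.exp (c * l ^ 2) := by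
  filter_upwards [srd_ev1 C k one_pos, eventually_ge_atTop (0 : ℝ),
    eventually_ge_atTop (((E : ℝ) + 1) / c)] with l h1 h2 h3
  rw [div_le_iff₀ hc] at h3
  calc C * l ^ k * Real.exp (E * l) ≤ Real.exp (1 * l) * Real.exp (E * l) := by gcongr
    _ = Real.exp (((E : ℝ) + 1) * l) := by
      rw [← Real.exp_add]
      congr 1
      ring
    _ ≤ Real.exp (c * l ^ 2) := by
      apply Real.exp_le_exp.2
      nlinarith

/-- the size of `T` -/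
theorem srd_T (n : ℕ) (D ε₁ P lq : ℝ) (hD : 0 ≤ D) (hε₁ : 0 < ε₁) (hε₂ : ε₁ < 1 / 2)
    (hP : 1 ≤ P) (h0 : 0 ≤ lq) (h2 : lq ≤ 2 * P) :
    0 ≤ 1 + (D + n * lq) + (1 / 2 - ε₁) * (n * lq) ∧
      1 + (D + n * lq) + (1 / 2 - ε₁) * (n * lq) ≤ (1 + D + 4 * n) * P := by
  have hX : 0 ≤ (n : ℝ) * lq := by positivity
  have hY : 0 ≤ (1 / 2 - ε₁) * (n * lq) := mul_nonneg (by linarith) hX
  have hY2 : (1 / 2 - ε₁) * (n * lq) ≤ 1 * (n * lq) :=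
    mul_le_mul_of_nonneg_right (by linarith) hX
  have h4 : (n : ℝ) * lq ≤ n * (2 * P) := mul_le_mul_of_nonneg_left h2 (Nat.cast_nonneg n)
  have h5 : (1 + D) * 1 ≤ (1 + D) * P := mul_le_mul_of_nonneg_left hP (by linarith)
  have e1 : (1 + D + 4 * n) * P = (1 + D) * P + 2 * (n * (2 * P)) := by ring
  constructor
  · linarith
  · rw [e1]
    linarith

theorem srd_b (n : ℕ) (D ε₁ ε lq P R l E : ℝ) (hn : (1 : ℝ) ≤ n) (hD : 0 ≤ D) (hε₁ : 0 < ε₁)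
    (hε₂ : ε₁ < 1 / 2) (hε : 0 < ε) (hε3 : ε ≤ 1 / 2) (hε4 : ε ≤ ε₁ / 8) (hlq : l ^ 2 / 2 ≤ lq)
    (hR : 0 ≤ R) (hPR : P ≤ R)
    (g2 : R * Real.exp D * Real.exp (E * l) ≤ Real.exp (5 / 16 * ε₁ * l ^ 2)) :
    P * Real.exp ((1 / 2 + ε) * (D + (2 - 2 * ε₁) * (n * lq))) * Real.exp (E * l) ≤
      Real.exp (n * lq) * Real.exp (-(ε₁ / 8) * (n * lq)) := by
  have hl0 : 0 ≤ l ^ 2 := sq_nonneg l
  have hlq0 : 0 ≤ lq := by linarith
  have hX : 0 ≤ (n : ℝ) * lq := by positivity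
  have hX2 : lq ≤ (n : ℝ) * lq := by
    have := mul_le_mul_of_nonneg_right hn hlq0
    linarith
  have h4 : (1 / 2 + ε) * (2 - 2 * ε₁) ≤ 1 - 3 / 4 * ε₁ := by nlinarith
  have h5 : (1 / 2 + ε) * D ≤ 1 * D := mul_le_mul_of_nonneg_right (by linarith) hD
  have h6 := mul_le_mul_of_nonneg_right h4 hX
  have h3 : (1 / 2 + ε) * (D + (2 - 2 * ε₁) * (n * lq)) ≤ D + (1 - 3 / 4 * ε₁) * (n * lq) := by
    have e1 : (1 / 2 + ε) * (D + (2 - 2 * ε₁) * (n * lq)) =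
      (1 / 2 + ε) * D + (1 / 2 + ε) * (2 - 2 * ε₁) * (n * lq) := by ring
    rw [e1]
    linarith
  have h7 : 5 / 16 * ε₁ * l ^ 2 ≤ 5 / 8 * ε₁ * (n * lq) := by
    have h8 : l ^ 2 / 2 ≤ n * lq := hlq.trans hX2
    have h9 := mul_le_mul_of_nonneg_left h8 (by positivity : 0 ≤ 5 / 8 * ε₁)
    linarith
  have h10 := Real.exp_le_exp.2 h3
  have h11 := Real.exp_le_exp.2 h7
  calc P * Real.exp ((1 / 2 + ε) * (D + (2 - 2 * ε₁) * (n * lq))) * Real.exp (E * l)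
      ≤ R * Real.exp (D + (1 - 3 / 4 * ε₁) * (n * lq)) * Real.exp (E * l) :=
        mul_le_mul_of_nonneg_right (mul_le_mul hPR h10 (Real.exp_pos _).le hR)
          (Real.exp_pos _).le
    _ = (R * Real.exp D * Real.exp (E * l)) * Real.exp ((1 - 3 / 4 * ε₁) * (n * lq)) := by
      rw [Real.exp_add]
      ring
    _ ≤ Real.exp (5 / 8 * ε₁ * (n * lq)) * Real.exp ((1 - 3 / 4 * ε₁) * (n * lq)) :=
      mul_le_mul_of_nonneg_right (g2.trans h11) (Real.exp_pos _).le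
    _ = Real.exp (n * lq) * Real.exp (-(ε₁ / 8) * (n * lq)) := by
      rw [← Real.exp_add, ← Real.exp_add]
      congr 1
      ring

theorem srd_c (n : ℕ) (D ε₁ ε lq P R l E : ℝ) (hD : 0 ≤ D) (hε₁ : 0 < ε₁)
    (hε : 0 < ε) (hε3 : ε ≤ 1 / 2) (hε5 : ε * (32 * n) ≤ 1)
    (hlq : l ^ 2 / 2 ≤ lq) (hR : 0 ≤ R) (hPR : P ≤ R)
    (g3 : R * Real.exp D * Real.exp (E * l) ≤ Real.exp (1 / 32 * l ^ 2)) :
    P * Real.exp (ε * (D + (2 - 2 * ε₁) * (n * lq))) * Real.exp (E * l) ≤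
      Real.exp (lq / 8) := by
  have hl0 : 0 ≤ l ^ 2 := sq_nonneg l
  have hlq0 : 0 ≤ lq := by linarith
  have hX : 0 ≤ (n : ℝ) * lq := by positivity
  have h5 : ε * D ≤ 1 * D := mul_le_mul_of_nonneg_right (by linarith) hD
  have h6 := mul_le_mul_of_nonneg_right hε5 hlq0
  have h8 : (2 - 2 * ε₁) * (n * lq) ≤ 2 * (n * lq) :=
    mul_le_mul_of_nonneg_right (by linarith) hX
  have h9 := mul_le_mul_of_nonneg_left h8 hε.le
  have h3 : ε * (D + (2 - 2 * ε₁) * (n * lq)) ≤ D + lq / 16 := by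
    have e1 : ε * (D + (2 - 2 * ε₁) * (n * lq)) = ε * D + ε * ((2 - 2 * ε₁) * (n * lq)) := by
      ring
    have e2 : ε * (2 * (n * lq)) = ε * (32 * n) * lq / 16 := by ring
    rw [e1]
    linarith
  have h7 : 1 / 32 * l ^ 2 ≤ lq / 16 := by linarith
  have h10 := Real.exp_le_exp.2 h3
  have h11 := Real.exp_le_exp.2 h7
  calc P * Real.exp (ε * (D + (2 - 2 * ε₁) * (n * lq))) * Real.exp (E * l)
      ≤ R * Real.exp (D + lq / 16) * Real.exp (E * l) :=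
        mul_le_mul_of_nonneg_right (mul_le_mul hPR h10 (Real.exp_pos _).le hR)
          (Real.exp_pos _).le
    _ = (R * Real.exp D * Real.exp (E * l)) * Real.exp (lq / 16) := by
      rw [Real.exp_add]
      ring
    _ ≤ Real.exp (lq / 16) * Real.exp (lq / 16) :=
      mul_le_mul_of_nonneg_right (g3.trans h11) (Real.exp_pos _).le
    _ = Real.exp (lq / 8) := by
      rw [← Real.exp_add]
      congr 1
      ring

/-- the numerical inequalities -/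
theorem srd_num (n E E' A : ℕ) (D ε₁ ε C : ℝ) (hn : 1 ≤ n) (hA : 1 ≤ A) (hD : 0 ≤ D)
    (hε₁ : 0 < ε₁) (hε₂ : ε₁ < 1 / 2) (hε : 0 < ε) (hε3 : ε ≤ 1 / 2) (hε4 : ε ≤ ε₁ / 8)
    (hε5 : ε * (32 * n) ≤ 1) (hC : 0 ≤ C) : ∃ l₀ : ℝ, 1 ≤ l₀ ∧ ∀ l lq : ℝ, l₀ ≤ l →
    l ^ (A + 1) / 2 ≤ lq → lq ≤ 2 * l ^ (A + 1) →
      C * (1 + (D + n * lq) + (1 / 2 - ε₁) * (n * lq)) ^ 4 * (1 + 16 * E * l) ^ E' ≤
        Real.exp (1 / 8 * l) ∧
      C * (1 + (D + n * lq) + (1 / 2 - ε₁) * (n * lq)) ^ 4 *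
        Real.exp ((1 / 2 + ε) * (D + (2 - 2 * ε₁) * (n * lq))) * Real.exp (E * l) ≤
        Real.exp (n * lq) * Real.exp (-(ε₁ / 8) * (n * lq)) ∧
      C * (1 + (D + n * lq) + (1 / 2 - ε₁) * (n * lq)) ^ 4 *
        Real.exp (ε * (D + (2 - 2 * ε₁) * (n * lq))) * Real.exp (E * l) ≤
        Real.exp (lq / 8) ∧
      16 * E * l < lq / 2 := by
  have hn' : (1 : ℝ) ≤ n := by exact_mod_cast hn
  obtain ⟨c0, hc0⟩ : ∃ c0 : ℝ, c0 = 1 + D + 4 * n := ⟨_, rfl⟩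
  have hc0p : 0 < c0 := by
    rw [hc0]
    positivity
  have e1 := srd_ev1 (C * c0 ^ 4 * (1 + 16 * E) ^ E') (4 * (A + 1) + E') (b := 1 / 8)
    (by norm_num)
  have e2 := srd_ev2 (C * c0 ^ 4 * Real.exp D) (4 * (A + 1)) E (c := 5 / 16 * ε₁)
    (by positivity)
  have e3 := srd_ev2 (C * c0 ^ 4 * Real.exp D) (4 * (A + 1)) E (c := 1 / 32) (by norm_num)
  obtain ⟨l₀, hl₀⟩ := eventually_atTop.1 (e1.and (e2.and e3))
  refine ⟨max l₀ (max 1 (64 * E + 1)), (le_max_left _ _).trans (le_max_right _ _),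
    fun l lq hl h1 h2 => ?_⟩
  obtain ⟨g1, g2, g3⟩ := hl₀ l ((le_max_left _ _).trans hl)
  have hl1 : 1 ≤ l := ((le_max_left _ _).trans (le_max_right _ _)).trans hl
  have hl2 : 64 * E + 1 ≤ l := ((le_max_right _ _).trans (le_max_right _ _)).trans hl
  clear hl₀ e1 e2 e3
  have hE : (0 : ℝ) ≤ E := Nat.cast_nonneg E
  have hlA : l ^ 2 ≤ l ^ (A + 1) := pow_le_pow_right₀ hl1 (by omega)
  have hlA1 : 1 ≤ l ^ (A + 1) := one_le_pow₀ hl1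
  have hlq : l ^ 2 / 2 ≤ lq := by linarith
  have hl20 : 0 ≤ l ^ 2 := sq_nonneg l
  have hlq0 : 0 ≤ lq := by linarith
  obtain ⟨hT0, hT1⟩ := srd_T n D ε₁ (l ^ (A + 1)) lq hD hε₁ hε₂ hlA1 hlq0 h2
  generalize 1 + (D + n * lq) + (1 / 2 - ε₁) * (n * lq) = T at *
  rw [← hc0] at hT1
  have hT4 : T ^ 4 ≤ c0 ^ 4 * l ^ (4 * (A + 1)) := by
    have h3 := pow_le_pow_left₀ hT0 hT1 4
    rw [mul_pow, ← pow_mul, mul_comm (A + 1) 4] at h3
    exact h3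
  have hCT : C * T ^ 4 ≤ C * c0 ^ 4 * l ^ (4 * (A + 1)) := by
    rw [mul_assoc]
    exact mul_le_mul_of_nonneg_left hT4 hC
  have hCT0 : 0 ≤ C * T ^ 4 := by positivity
  have hR : 0 ≤ C * c0 ^ 4 * l ^ (4 * (A + 1)) := hCT0.trans hCT
  refine ⟨?_, ?_, ?_, ?_⟩
  · have h30 : 1 + 16 * (E : ℝ) * l ≤ (1 + 16 * E) * l := by linarith
    have h31 : 0 ≤ 1 + 16 * (E : ℝ) * l := by positivity
    have h3 : (1 + 16 * (E : ℝ) * l) ^ E' ≤ (1 + 16 * (E : ℝ)) ^ E' * l ^ E' := by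
      rw [← mul_pow]
      exact pow_le_pow_left₀ h31 h30 E'
    have h32 : 0 ≤ (1 + 16 * (E : ℝ) * l) ^ E' := pow_nonneg h31 E'
    calc C * T ^ 4 * (1 + 16 * E * l) ^ E'
        ≤ (C * c0 ^ 4 * l ^ (4 * (A + 1))) * ((1 + 16 * E) ^ E' * l ^ E') :=
          mul_le_mul hCT h3 h32 hR
      _ = C * c0 ^ 4 * (1 + 16 * E) ^ E' * l ^ (4 * (A + 1) + E') := by
        rw [pow_add]
        ring
      _ ≤ Real.exp (1 / 8 * l) := g1
  · refine srd_b n D ε₁ ε lq _ _ l E hn' hD hε₁ hε₂ hε hε3 hε4 hlq hR hCT ?_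
    rw [mul_right_comm]
    calc C * c0 ^ 4 * l ^ (4 * (A + 1)) * Real.exp (E * l) * Real.exp D =
        C * c0 ^ 4 * Real.exp D * l ^ (4 * (A + 1)) * Real.exp (E * l) := by ring
      _ ≤ _ := g2
  · refine srd_c n D ε₁ ε lq _ _ l E hD hε₁ hε hε3 hε5 hlq hR hCT ?_
    rw [mul_right_comm]
    calc C * c0 ^ 4 * l ^ (4 * (A + 1)) * Real.exp (E * l) * Real.exp D =
        C * c0 ^ 4 * Real.exp D * l ^ (4 * (A + 1)) * Real.exp (E * l) := by ring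
      _ ≤ _ := g3
  · have h3 : (64 * E + 1) * l ≤ l * l := mul_le_mul_of_nonneg_right hl2 (by linarith)
    have h4 : l * l = l ^ 2 := by ring
    linarith

/-- the final inequality -/
theorem srd_fin (a b CN CD C2 T4 G x8 P Yh r S R NN : ℝ) (ha0 : 0 ≤ a) (hb : 0 ≤ b)
    (hCD : 0 ≤ CD) (hC2 : 0 ≤ C2) (hT4 : 0 ≤ T4) (hG : 0 ≤ G)
    (hP : 1 ≤ P) (hYh : 0 ≤ Yh) (hr : a * r ≤ CN) (haP : a * P ≤ CN * b)
    (h1 : CN * CD * C2 * T4 * G ≤ x8 * P ^ (1 / 4 : ℝ))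
    (h2 : CN * CD * C2 * T4 * Yh ≤ b * NN) (hS : S ≤ C2 * (G + Yh * r))
    (hR : R ≤ CD * T4 * S) : a * R ≤ b * (x8 * P ^ (-(3 / 4) : ℝ) + NN) := by
  have hP0 : 0 < P := by linarith
  have e0 : 0 ≤ CD * T4 := mul_nonneg hCD hT4
  have e1 : a * R ≤ a * (CD * T4 * (C2 * (G + Yh * r))) :=
    mul_le_mul_of_nonneg_left (hR.trans (mul_le_mul_of_nonneg_left hS e0)) ha0
  have e2 : a * (CD * T4 * (C2 * (G + Yh * r))) =
      CD * T4 * C2 * G * a + CD * T4 * C2 * Yh * (a * r) := by ring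
  have e3 : CD * T4 * C2 * Yh * (a * r) ≤ CD * T4 * C2 * Yh * CN :=
    mul_le_mul_of_nonneg_left hr (by positivity)
  have e4 : CD * T4 * C2 * G * (a * P) ≤ CD * T4 * C2 * G * (CN * b) :=
    mul_le_mul_of_nonneg_left haP (by positivity)
  have e5 := mul_le_mul_of_nonneg_right h1 hb
  have e6 : CD * T4 * C2 * G * a ≤ x8 * P ^ (1 / 4 : ℝ) * b / P := by
    rw [le_div_iff₀ hP0]
    linarith
  have e7 : P ^ (-(3 / 4) : ℝ) = P ^ (1 / 4 : ℝ) / P := by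
    rw [show (-(3 / 4) : ℝ) = 1 / 4 - 1 by norm_num, Real.rpow_sub_one hP0.ne']
  have e8 : b * (x8 * P ^ (-(3 / 4) : ℝ) + NN) = x8 * P ^ (1 / 4 : ℝ) * b / P + b * NN := by
    rw [e7]
    ring
  rw [e8]
  linarith

end Pool.Agent.H4.SM
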