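import Pool.Agent.H20.SM.Targets
import Pool.Agent.H59.CV.SMO
import Pool.Agent.H4.SM.SRdn

/-!
# Row SRd of the board sm: the relations modulo a proper divisor of `q`
-/

set_option autoImplicit false

open NumberField NumberField.InfinitePlace Complex Filter Topology

namespace Pool.Agent.H4.SM

open Pool.Agent.H20.SM Pool.Agent.H37.CV Pool.Agent.H28.RC Pool.Agent.H25.HK
open Pool.Agent.H59.CV (one_le_nm)

section

variable {K : Type} [Field K] [NumberField K]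

theorem srd_pq {q : ℕ} (hq : Squarefree q) (d : Ideal (𝓞 K)) : pd q d * (qd q d : ℝ) = q := by
  classical
  have h1 : (∏ p ∈ Pd q d, p) * qd q d = q := by
    have h2 : Pd q d ⊆ q.primeFactors := Finset.filter_subset _ _
    unfold qd
    rw [mul_comm, Finset.prod_sdiff h2]
    exact Nat.prod_primeFactors_of_squarefree hq
  have h3 : pd q d = ((∏ p ∈ Pd q d, p : ℕ) : ℝ) := by
    unfold pd
    push_cast
    rfl
  rw [h3, ← Nat.cast_mul, h1]

theorem srd_pd1 (q : ℕ) (d : Ideal (𝓞 K)) : 1 ≤ pd q d := by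
  classical
  have h1 : pd q d = ((∏ p ∈ Pd q d, p : ℕ) : ℝ) := by
    unfold pd
    push_cast
    rfl
  rw [h1]
  have h2 : 1 ≤ ∏ p ∈ Pd q d, p := by
    refine Nat.one_le_iff_ne_zero.2 (Finset.prod_ne_zero_iff.2 fun p hp => ?_)
    have h3 : p ∈ q.primeFactors := (Finset.mem_filter.1 hp).1
    exact (Nat.prime_of_mem_primeFactors h3).ne_zero
  exact_mod_cast h2

theorem srd_disc : 1 ≤ |(discr K : ℝ)| := by
  have h1 : discr K ≠ 0 := discr_ne_zero K
  have h2 : 1 ≤ |discr K| := Int.one_le_abs h1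
  rw [← Int.cast_abs]
  exact_mod_cast h2

theorem srd_wt (p : Ideal (𝓞 K) × Ideal (𝓞 K)) : 0 ≤ wt p := by
  unfold wt
  have h1 : 0 ≤ nm p.1 := Nat.cast_nonneg _
  have h2 : 0 ≤ nm p.2 := Nat.cast_nonneg _
  positivity

end

/-- from `DTr` to the sum of the weights -/
theorem srd_sum (hDTr : T_DTr) (F : Type) [Field F] [NumberField F] [IsTotallyComplex F] :
    ∃ C : ℝ, 0 < C ∧ ∀ (m d : Ideal (𝓞 F)) (Q M : ℝ) (X : Finset (Ideal (𝓞 F) × Ideal (𝓞 F))),
      1 ≤ Q → 1 ≤ M → (∀ p ∈ X, p ∈ CP m d) →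
      ∑ p ∈ X, ‖Dr m Q M p.1 p.2‖ ≤ C * (1 + Real.log Q + Real.log M) ^ 4 *
        ∑ p ∈ X, wt p * min 1 ((Q * M ^ 2 / (nm p.1 * nm p.2)) ^ 2) := by
  obtain ⟨C, hC, h⟩ := hDTr F 2
  refine ⟨C, hC, fun m d Q M X hQ hM hX => ?_⟩
  rw [Finset.mul_sum]
  refine Finset.sum_le_sum fun p hp => ?_
  obtain ⟨h1, h2, h3, -, -, -⟩ := hX p hp
  refine (h m Q M p.1 p.2 hQ hM h1 h2 h3).trans (le_of_eq ?_)
  ring

theorem pf_SRd (hNCR : T_NCR) (hPAR : T_PAR) (hNCG : T_NCG) (hSNO : T_SNO) (hCHT : T_CHT)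
    (hCH1 : T_CH1) (hDTr : T_DTr) : T_SRd := by
  classical
  intro F _ _ _ _ A ε₁ hA hε₁ hε₂
  obtain ⟨CN, E, hCN, hE, hN⟩ := hNCR F
  obtain ⟨xN, hN⟩ := hN A
  obtain ⟨xP, hP⟩ := hPAR F A
  obtain ⟨n, hn⟩ : ∃ n : ℕ, n = Module.finrank ℚ F := ⟨_, rfl⟩
  have hn1 : 1 ≤ n := by
    rw [hn]
    exact Module.finrank_pos
  have hn1' : (1 : ℝ) ≤ n := by exact_mod_cast hn1
  obtain ⟨ε, hε, hε1, hε2, hε3⟩ : ∃ ε : ℝ, 0 < ε ∧ ε ≤ 1 / 64 ∧ ε ≤ ε₁ / 8 ∧
      ε * (32 * n) ≤ 1 := by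
    refine ⟨min (1 / 64) (min (ε₁ / 8) (1 / (32 * n))), by positivity, min_le_left _ _,
      (min_le_right _ _).trans (min_le_left _ _), ?_⟩
    have h1 : min (1 / 64) (min (ε₁ / 8) (1 / (32 * (n : ℝ)))) ≤ 1 / (32 * n) :=
      (min_le_right _ _).trans (min_le_right _ _)
    rw [le_div_iff₀ (by positivity)] at h1
    exact h1
  obtain ⟨CH, hCH, hH⟩ := hCHT F ε hε hε1
  obtain ⟨C1, hC1, hH1⟩ := hCH1 F ε hε hε1
  obtain ⟨CS, E', hS⟩ := hSNO F
  obtain ⟨CD, hCD, hDT⟩ := srd_sum hDTr F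
  obtain ⟨D, hD⟩ : ∃ D : ℝ, D = Real.log |(discr F : ℝ)| := ⟨_, rfl⟩
  have hD0 : 0 ≤ D := by
    rw [hD]
    exact Real.log_nonneg srd_disc
  have hCN0 : 0 < CN := by linarith
  obtain ⟨l₀, hl₀1, hnum⟩ := srd_num n E E' A D ε₁ ε (CN * CD * (|CS| + CH + C1)) hn1 hA hD0
    hε₁ hε₂ hε (by linarith) hε2 hε3 (by positivity)
  refine ⟨max (max xN xP) (Real.exp l₀), fun x q hx hSp d hd hdq X hX => ?_⟩
  have hxN : xN ≤ x := ((le_max_left _ _).trans (le_max_left _ _)).trans hx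
  have hxP : xP ≤ x := ((le_max_right _ _).trans (le_max_left _ _)).trans hx
  have hxl : Real.exp l₀ ≤ x := (le_max_right _ _).trans hx
  have hx0 : 0 < x := (Real.exp_pos _).trans_le hxl
  obtain ⟨l, hl⟩ : ∃ l : ℝ, l = Real.log x := ⟨_, rfl⟩
  have hxe : x = Real.exp l := by rw [hl, Real.exp_log hx0]
  have hll : l₀ ≤ l := by
    rw [hl, Real.le_log_iff_exp_le hx0]
    exact hxl
  obtain ⟨hnc0, hnmE, hd3⟩ := hN x q hxN hSp
  obtain ⟨huc, hnu, hnp⟩ := hd3 d hd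
  obtain ⟨hp1, hp2, -, hp4⟩ := hP x q hxP hSp
  obtain ⟨lq, hlq⟩ : ∃ lq : ℝ, lq = Real.log q := ⟨_, rfl⟩
  rw [← hl, ← hlq] at hp1 hp2
  rw [← hn, ← hlq] at hp4
  have hl1 : 1 ≤ l := hl₀1.trans hll
  have hlq0 : 0 < lq := by
    have : 1 ≤ l ^ (A + 1) := one_le_pow₀ hl1
    linarith
  have hq0 : (0 : ℝ) < q := by
    rcases Nat.eq_zero_or_pos q with h | h
    · rw [h, Nat.cast_zero, Real.log_zero] at hlq
      linarith
    · exact_mod_cast h
  have hqe : (q : ℝ) = Real.exp lq := by rw [hlq, Real.exp_log hq0]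
  obtain ⟨ha, hb, hc, hd1⟩ := hnum l lq hll hp1 hp2
  -- the norm of `q`
  have hqi : qi F q ≠ ⊥ := by
    unfold qi
    rw [Ne, Ideal.span_singleton_eq_bot]
    have : q ≠ 0 := by
      rintro rfl
      simp at hq0
    exact_mod_cast this
  obtain ⟨N, hNd⟩ : ∃ N : ℝ, N = nm (qi F q) := ⟨_, rfl⟩
  have hN1 : 1 ≤ N := by
    rw [hNd]
    exact one_le_nm hqi
  have hN0 : 0 < N := by linarith
  rw [← hNd] at hp4 hnmE
  have hNe : N = Real.exp (n * lq) := by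
    rw [← hp4, Real.exp_log hN0]
  have hd0 : d ≠ ⊥ := by
    rintro rfl
    exact hqi (le_bot_iff.1 hd)
  have hnmd : 1 ≤ nm d := one_le_nm hd0
  -- the parameters
  obtain ⟨Q, hQ⟩ : ∃ Q : ℝ, Q = cnd F (qi F q) := ⟨_, rfl⟩
  obtain ⟨M, hM⟩ : ∃ M : ℝ, M = Mo F ε₁ q := ⟨_, rfl⟩
  have hQ2 : Q = |(discr F : ℝ)| * N := by rw [hQ, hNd]; rfl
  have hM2 : M = N ^ (1 / 2 - ε₁) := by rw [hM, hNd]; rfl
  have hdisc := srd_disc (K := F)
  have hQ1 : 1 ≤ Q := by
    rw [hQ2]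
    exact one_le_mul_of_one_le_of_one_le hdisc hN1
  have hM1 : 1 ≤ M := by
    rw [hM2]
    exact Real.one_le_rpow hN1 (by linarith)
  have hlQ : Real.log Q = D + n * lq := by
    rw [hQ2, Real.log_mul (by linarith) hN0.ne', ← hD, hp4]
  have hlM : Real.log M = (1 / 2 - ε₁) * (n * lq) := by
    rw [hM2, Real.log_rpow hN0, hp4]
  obtain ⟨Y, hY⟩ : ∃ Y : ℝ, Y = Q * M ^ 2 := ⟨_, rfl⟩
  have hY1 : 1 ≤ Y := by
    rw [hY]
    exact one_le_mul_of_one_le_of_one_le hQ1 (one_le_pow₀ hM1)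
  have hY0 : 0 < Y := by linarith
  have hlY : Real.log Y = D + (2 - 2 * ε₁) * (n * lq) := by
    rw [hY, Real.log_mul (by linarith) (by positivity), Real.log_pow, hlQ, hlM]
    push_cast
    ring
  have hYe : ∀ a : ℝ, Y ^ a = Real.exp (a * (D + (2 - 2 * ε₁) * (n * lq))) := by
    intro a
    rw [Real.rpow_def_of_pos hY0, hlY, mul_comm]
  obtain ⟨T, hT⟩ : ∃ T : ℝ, T = 1 + (D + n * lq) + (1 / 2 - ε₁) * (n * lq) := ⟨_, rfl⟩
  have hT0 : 0 ≤ T := by
    have h1 := Real.log_nonneg hQ1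
    have h2 := Real.log_nonneg hM1
    rw [hT, ← hlQ, ← hlM]
    linarith
  have hT4 : 0 ≤ T ^ 4 := by positivity
  rw [← hT] at ha hb hc
  rw [← hYe] at hb hc
  have hsum := hDT (qi F q) d Q M X hQ1 hM1 hX
  rw [hlQ, hlM, ← hT, ← hY] at hsum
  rw [← hQ, ← hM, ← hNd]
  -- abbreviations
  obtain ⟨a, haa⟩ : ∃ a : ℝ, a = (nc (qi F q) d : ℝ) := ⟨_, rfl⟩
  obtain ⟨b, hbb⟩ : ∃ b : ℝ, b = (nc (qi F q) (qi F q) : ℝ) := ⟨_, rfl⟩
  obtain ⟨u, huu⟩ : ∃ u : ℝ, u = (uc d : ℝ) := ⟨_, rfl⟩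
  obtain ⟨P, hPP⟩ : ∃ P : ℝ, P = pd q d := ⟨_, rfl⟩
  have ha0 : 0 ≤ a := by rw [haa]; exact Nat.cast_nonneg _
  have hb0 : 0 < b := by rw [hbb]; exact_mod_cast hnc0
  have hu0 : 0 ≤ u := by rw [huu]; exact Nat.cast_nonneg _
  have hP1 : 1 ≤ P := by rw [hPP]; exact srd_pd1 q d
  rw [← haa, ← huu] at hnu
  rw [← haa, ← hbb, ← hPP] at hnp
  rw [← huu] at huc
  rw [← hbb] at hnmE
  rw [← haa, ← hbb, ← hPP]
  have hPq : P * (qd q d : ℝ) = q := by rw [hPP]; exact srd_pq hSp.sq.1 d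
  have hxE : x ^ E = Real.exp (E * l) := by
    rw [hxe, ← Real.exp_nat_mul]
  have hP0 : 0 < P := by linarith
  -- the common second term
  have hsec : CN * CD * (|CS| + CH + C1) * T ^ 4 * Y ^ (1 / 2 + ε) ≤ b * N ^ (-(ε₁ / 8)) := by
    have h1 : N ^ (-(ε₁ / 8)) = Real.exp (-(ε₁ / 8) * (n * lq)) := by
      rw [Real.rpow_def_of_pos hN0, hp4, mul_comm]
    rw [h1]
    have h2 : 0 < Real.exp (E * l) := Real.exp_pos _
    rw [← hxE] at hb h2
    rw [← hNe] at hb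
    have h3 : CN * CD * (|CS| + CH + C1) * T ^ 4 * Y ^ (1 / 2 + ε) * x ^ E ≤
        b * Real.exp (-(ε₁ / 8) * (n * lq)) * x ^ E := by
      calc _ ≤ N * Real.exp (-(ε₁ / 8) * (n * lq)) := hb
        _ ≤ (x ^ E * b) * Real.exp (-(ε₁ / 8) * (n * lq)) :=
          mul_le_mul_of_nonneg_right hnmE (Real.exp_pos _).le
        _ = _ := by ring
    exact le_of_mul_le_mul_right h3 h2
  have hCS : 0 ≤ |CS| := abs_nonneg CS
  obtain ⟨C2, hC2⟩ : ∃ C2 : ℝ, C2 = |CS| + CH + C1 := ⟨_, rfl⟩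
  have hC20 : 0 ≤ C2 := by rw [hC2]; positivity
  have hanu : a * (u / nm d) ≤ CN := by
    rw [← mul_div_assoc, div_le_iff₀ (by linarith)]
    exact hnu
  have hYh : 0 < Y ^ (1 / 2 + ε) := Real.rpow_pos_of_pos hY0 _
  have hYε : 0 < Y ^ ε := Real.rpow_pos_of_pos hY0 _
  have hx8e : x ^ (1 / 8 : ℝ) = Real.exp (1 / 8 * l) := by
    rw [hxe, ← Real.exp_mul, mul_comm]
  have hx81 : 1 ≤ x ^ (1 / 8 : ℝ) := by
    rw [hx8e]
    exact Real.one_le_exp (by positivity)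
  have hP4 : 1 ≤ P ^ (1 / 4 : ℝ) := Real.one_le_rpow hP1 (by norm_num)
  rw [← hx8e] at ha
  rw [← hC2] at ha hb hc hsec
  have hrn : 0 ≤ u / nm d := by positivity
  have hC2H : CH ≤ C2 := by rw [hC2]; linarith
  have hC21 : C1 ≤ C2 := by rw [hC2]; linarith
  by_cases hqd : (q : ℝ) ≤ (qd q d : ℝ) ^ 2
  · refine srd_fin a b CN CD C2 (T ^ 4) ((1 + 16 * E * l) ^ E') (x ^ (1 / 8 : ℝ)) P
      (Y ^ (1 / 2 + ε)) (u / nm d) _ _ _ ha0 hb0.le hCD.le hC20 hT4 (by positivity) hP1 hYh.le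
      hanu hnp (ha.trans ?_) hsec ?_ hsum
    · exact le_mul_of_one_le_right (by linarith) hP4
    · obtain ⟨L, hL⟩ : ∃ L : ℝ, L = Real.exp (16 * E * l) := ⟨_, rfl⟩
      have hE1 : (1 : ℝ) ≤ E := by exact_mod_cast hE
      have hEl : 1 ≤ (E : ℝ) * l := one_le_mul_of_one_le_of_one_le hE1 hl1
      have hL16 : 16 ≤ 16 * E * l := by linarith
      have hL2 : 2 ≤ L := by
        rw [hL]
        linarith [Real.add_one_le_exp (16 * E * l)]
      have hLu : (uc d : ℝ) ≤ L ^ (1 / 16 : ℝ) := by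
        have h1 : L ^ (1 / 16 : ℝ) = x ^ E := by
          rw [hxE, hL, ← Real.exp_mul]
          congr 1
          ring
        rw [h1, ← huu]
        exact huc
      have hLq : L < (qd q d : ℝ) := by
        have h1 : Real.exp (lq / 2) ^ 2 ≤ (qd q d : ℝ) ^ 2 := by
          rw [← Real.exp_nat_mul]
          refine le_trans (le_of_eq ?_) hqd
          rw [hqe]
          congr 1
          push_cast
          ring
        have h2 : Real.exp (lq / 2) ≤ (qd q d : ℝ) :=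
          le_of_sq_le_sq h1 (Nat.cast_nonneg _)
        refine lt_of_lt_of_le ?_ h2
        rw [hL]
        exact Real.exp_lt_exp.2 hd1
      have hlL : Real.log L = 16 * E * l := by rw [hL, Real.log_exp]
      rw [← Finset.sum_filter_add_sum_filter_not X (fun p => nm p.1 * nm p.2 < L)]
      have hS1 : ∑ p ∈ X.filter (fun p => nm p.1 * nm p.2 < L),
          wt p * min 1 ((Y / (nm p.1 * nm p.2)) ^ 2) ≤ |CS| * (1 + 16 * E * l) ^ E' := by
        have h1 := hS L (X.filter (fun p => nm p.1 * nm p.2 < L)) (by linarith) (by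
          intro p hp
          obtain ⟨hpX, hpL⟩ := Finset.mem_filter.1 hp
          obtain ⟨g1, g2, -⟩ := hX p hpX
          refine ⟨g1, g2, ?_, ?_⟩
          · exact (hNCG F q hSp.sq d hd p (hX p hpX)).2.1 (hpL.trans hLq)
          · have g3 := one_le_nm g2
            have g4 := one_le_nm g1
            exact (le_mul_of_one_le_right (by linarith) g3).trans hpL.le)
        rw [hlL] at h1
        have h3 : CS * (1 + 16 * E * l) ^ E' ≤ |CS| * (1 + 16 * E * l) ^ E' :=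
          mul_le_mul_of_nonneg_right (le_abs_self _) (by positivity)
        refine le_trans (Finset.sum_le_sum fun p hp => ?_) (h1.trans h3)
        obtain ⟨hpX, hpL⟩ := Finset.mem_filter.1 hp
        obtain ⟨g1, g2, -⟩ := hX p hpX
        refine mul_le_mul_of_nonneg_left ?_ (srd_wt p)
        have g3 : 1 ≤ nm p.1 * nm p.2 :=
          one_le_mul_of_one_le_of_one_le (one_le_nm g1) (one_le_nm g2)
        have g4 := Real.log_nonneg g3
        exact (min_le_left _ _).trans (one_le_pow₀ (by linarith))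
      have hS2 : ∑ p ∈ X.filter (fun p => ¬ nm p.1 * nm p.2 < L),
          wt p * min 1 ((Y / (nm p.1 * nm p.2)) ^ 2) ≤
          CH * (1 + Y ^ (1 / 2 + ε) * (u / nm d)) := by
        have h1 := hH (qi F q) d L Y (X.filter (fun p => ¬ nm p.1 * nm p.2 < L)) hqi hd hL2
          hY1 hLu (by
            intro p hp
            obtain ⟨hpX, hpL⟩ := Finset.mem_filter.1 hp
            exact ⟨hX p hpX, not_lt.1 hpL⟩)
        refine h1.trans (mul_le_mul_of_nonneg_left ?_ hCH.le)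
        have h2 : L ^ (-(1 / 4) : ℝ) ≤ 1 :=
          Real.rpow_le_one_of_one_le_of_nonpos (by linarith) (by norm_num)
        rw [← huu, mul_div_assoc]
        linarith
      have hG1 : 1 ≤ (1 + 16 * (E : ℝ) * l) ^ E' := one_le_pow₀ (by linarith)
      have e1 : CH * 1 ≤ CH * (1 + 16 * (E : ℝ) * l) ^ E' :=
        mul_le_mul_of_nonneg_left hG1 hCH.le
      have e2 : 0 ≤ Y ^ (1 / 2 + ε) * (u / nm d) := mul_nonneg hYh.le hrn
      have e3 := mul_le_mul_of_nonneg_right hC2H e2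
      have e4 : 0 ≤ C1 * (1 + 16 * (E : ℝ) * l) ^ E' := by positivity
      have e5 : C2 * ((1 + 16 * E * l) ^ E' + Y ^ (1 / 2 + ε) * (u / nm d)) =
          |CS| * (1 + 16 * E * l) ^ E' + CH * (1 + 16 * (E : ℝ) * l) ^ E' +
            C1 * (1 + 16 * (E : ℝ) * l) ^ E' + C2 * (Y ^ (1 / 2 + ε) * (u / nm d)) := by
        rw [hC2]
        ring
      rw [e5]
      linarith
  · refine srd_fin a b CN CD C2 (T ^ 4) (Y ^ ε * u) (x ^ (1 / 8 : ℝ)) P
      (Y ^ (1 / 2 + ε)) (u / nm d) _ _ _ ha0 hb0.le hCD.le hC20 hT4 (by positivity) hP1 hYh.le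
      hanu hnp ?_ hsec ?_ hsum
    · have h1 : Real.exp (lq / 8) ≤ P ^ (1 / 4 : ℝ) := by
        have h2 : (qd q d : ℝ) ^ 2 < q := not_le.1 hqd
        have hqd0 : 0 ≤ (qd q d : ℝ) := Nat.cast_nonneg _
        have h3 : Real.exp (lq / 2) ≤ P := by
          have h4 : (q : ℝ) = Real.exp (lq / 2) * Real.exp (lq / 2) := by
            rw [← Real.exp_add, hqe]
            congr 1
            ring
          have h5 : (qd q d : ℝ) < Real.exp (lq / 2) := by
            refine lt_of_pow_lt_pow_left₀ 2 (Real.exp_pos _).le ?_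
            rw [sq (Real.exp (lq / 2)), ← h4]
            exact h2
          by_contra hcon
          have h6 := not_le.1 hcon
          have h7 : P * (qd q d : ℝ) < Real.exp (lq / 2) * Real.exp (lq / 2) :=
            mul_lt_mul'' h6 h5 hP0.le hqd0
          rw [hPq, ← h4] at h7
          exact lt_irrefl _ h7
        have h8 : Real.exp (lq / 8) = Real.exp (lq / 2) ^ (1 / 4 : ℝ) := by
          rw [← Real.exp_mul]
          congr 1
          ring
        rw [h8]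
        exact Real.rpow_le_rpow (Real.exp_pos _).le h3 (by norm_num)
      have h2 : CN * CD * C2 * T ^ 4 * (Y ^ ε * u) ≤
          CN * CD * C2 * T ^ 4 * Y ^ ε * Real.exp (E * l) := by
        rw [← hxE, ← mul_assoc]
        exact mul_le_mul_of_nonneg_left huc (by positivity)
      refine (h2.trans (hc.trans h1)).trans ?_
      have h3 : 1 * P ^ (1 / 4 : ℝ) ≤ x ^ (1 / 8 : ℝ) * P ^ (1 / 4 : ℝ) :=
        mul_le_mul_of_nonneg_right hx81 (by linarith)
      linarith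
    · have h1 := hH1 (qi F q) d Y X hqi hd hY1 hX
      refine h1.trans ?_
      rw [← huu]
      have h2 : C1 * Y ^ ε * u * (1 + Y ^ (1 / 2 : ℝ) / nm d) =
          C1 * (Y ^ ε * u + Y ^ (1 / 2 + ε) * (u / nm d)) := by
        rw [Real.rpow_add hY0]
        ring
      rw [h2]
      exact mul_le_mul_of_nonneg_right hC21 (by positivity)

end Pool.Agent.H4.SM
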